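import Mathlib
import Pool.Agent.Helper10.Qc.Stmts

set_option autoImplicit false

/-!
# Certificate for the upper bound: induction on the subdivision tree
-/

namespace Pool.Agent.Helper10.Qc

open Pool.Agent.Helper19.Qh Pool.Agent.Helper19.Qc

lemma ut_mid (l h : ℕ) (hlh : l ≤ h) : l ≤ mid l h ∧ mid l h ≤ h := by
  unfold mid
  have e : Nat.div (Nat.add l h) 2 = (l + h) / 2 := rfl
  rw [e]
  constructor <;> omega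

lemma ut_split (l h : ℕ) (x : ℝ) (hx : (l : ℝ) ≤ x ∧ x ≤ h) :
    ((l : ℝ) ≤ x ∧ x ≤ (mid l h : ℕ)) ∨ (((mid l h : ℕ) : ℝ) ≤ x ∧ x ≤ h) := by
  rcases le_total x ((mid l h : ℕ) : ℝ) with h1 | h1
  · exact Or.inl ⟨hx.1, h1⟩
  · exact Or.inr ⟨h1, hx.2⟩

lemma ut_cond (a b : Bool) (h : cond a b false = true) : a = true ∧ b = true := by
  cases a <;> simp_all

theorem st_UT (h1 : ST_UL) (h2 : ST_UF) (h3 : ST_UO) : ST_UT := by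
  intro z0 z1 z2 z3 t
  induction t with
  | o =>
    intro L l0 h0 l1 g1 l2 g2 l3 g3 l h hz0 hz1 hz2 hz3 hL b0 b1 b2 b3 b4 hc e Y hI hD hh hR
    exact absurd hR (h3 z0 z1 z2 z3 l0 h0 l1 g1 l2 g2 l3 g3 l h hz0 hz1 hz2 hz3 hc e Y hI hD hh)
  | l =>
    intro L l0 h0 l1 g1 l2 g2 l3 g3 l h hz0 hz1 hz2 hz3 hL b0 b1 b2 b3 b4 hc e Y hI _ _ _
    exact h1 L l0 h0 l1 g1 l2 g2 l3 g3 l h hL b0 b1 b2 b3 b4 hc e Y hI
  | f t ih =>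
    intro L l0 h0 l1 g1 l2 g2 l3 g3 l h hz0 hz1 hz2 hz3 hL b0 b1 b2 b3 b4 hc e Y hI hD hh hR
    obtain ⟨L', hL', ⟨_, hb⟩, hS⟩ := h2 L l0 h0 l1 g1 l2 g2 l3 g3 l h
      (fun _ M => chkU z0 z1 z2 z3 t M l0 h0 l1 g1 l2 g2 l3 g3 l h) hL b0 b1 b2 b3 b4 hc
    exact le_trans (hS e Y hI) (ih L' l0 h0 l1 g1 l2 g2 l3 g3 l h hz0 hz1 hz2 hz3 hL' b0 b1 b2 b3
      b4 hb e Y hI hD hh hR)
  | s k a b iha ihb =>
    intro L l0 h0 l1 g1 l2 g2 l3 g3 l h hz0 hz1 hz2 hz3 hL b0 b1 b2 b3 b4 hc e Y hI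
    obtain ⟨i0, i1, i2, i3, i4⟩ := hI
    match k, hc with
    | 0, hc =>
      obtain ⟨ca, cb⟩ := ut_cond _ _ hc
      have hm := ut_mid l0 h0 b0
      rcases ut_split _ _ _ i0 with hx | hx
      · exact iha L _ _ _ _ _ _ _ _ _ _ hz0 hz1 hz2 hz3 hL hm.1 b1 b2 b3 b4 ca e Y
          ⟨hx, i1, i2, i3, i4⟩
      · exact ihb L _ _ _ _ _ _ _ _ _ _ hz0 hz1 hz2 hz3 hL hm.2 b1 b2 b3 b4 cb e Y
          ⟨hx, i1, i2, i3, i4⟩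
    | 1, hc =>
      obtain ⟨ca, cb⟩ := ut_cond _ _ hc
      have hm := ut_mid l1 g1 b1
      rcases ut_split _ _ _ i1 with hx | hx
      · exact iha L _ _ _ _ _ _ _ _ _ _ hz0 hz1 hz2 hz3 hL b0 hm.1 b2 b3 b4 ca e Y
          ⟨i0, hx, i2, i3, i4⟩
      · exact ihb L _ _ _ _ _ _ _ _ _ _ hz0 hz1 hz2 hz3 hL b0 hm.2 b2 b3 b4 cb e Y
          ⟨i0, hx, i2, i3, i4⟩
    | 2, hc =>
      obtain ⟨ca, cb⟩ := ut_cond _ _ hc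
      have hm := ut_mid l2 g2 b2
      rcases ut_split _ _ _ i2 with hx | hx
      · exact iha L _ _ _ _ _ _ _ _ _ _ hz0 hz1 hz2 hz3 hL b0 b1 hm.1 b3 b4 ca e Y
          ⟨i0, i1, hx, i3, i4⟩
      · exact ihb L _ _ _ _ _ _ _ _ _ _ hz0 hz1 hz2 hz3 hL b0 b1 hm.2 b3 b4 cb e Y
          ⟨i0, i1, hx, i3, i4⟩
    | 3, hc =>
      obtain ⟨ca, cb⟩ := ut_cond _ _ hc
      have hm := ut_mid l3 g3 b3
      rcases ut_split _ _ _ i3 with hx | hx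
      · exact iha L _ _ _ _ _ _ _ _ _ _ hz0 hz1 hz2 hz3 hL b0 b1 b2 hm.1 b4 ca e Y
          ⟨i0, i1, i2, hx, i4⟩
      · exact ihb L _ _ _ _ _ _ _ _ _ _ hz0 hz1 hz2 hz3 hL b0 b1 b2 hm.2 b4 cb e Y
          ⟨i0, i1, i2, hx, i4⟩
    | (k + 4), hc =>
      obtain ⟨ca, cb⟩ := ut_cond _ _ hc
      have hm := ut_mid l h b4
      rcases ut_split _ _ _ i4 with hx | hx
      · exact iha L _ _ _ _ _ _ _ _ _ _ hz0 hz1 hz2 hz3 hL b0 b1 b2 b3 hm.1 ca e Y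
          ⟨i0, i1, i2, i3, hx⟩
      · exact ihb L _ _ _ _ _ _ _ _ _ _ hz0 hz1 hz2 hz3 hL b0 b1 b2 b3 hm.2 cb e Y
          ⟨i0, i1, i2, i3, hx⟩

end Pool.Agent.Helper10.Qc
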